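import Pool.Agent.R515.HR.V

/-!
The radial function built from the profile.
-/

set_option autoImplicit false

namespace Pool.Agent.R515.HR

open MeasureTheory Set Filter Topology InnerProductSpace Laplacian
open scoped Real

section general
variable {E : Type*} [NormedAddCommGroup E] [InnerProductSpace ℝ E] [FiniteDimensional ℝ E]

/-- The Laplacian computed from the second derivative. -/
lemma laplacian_eq_of_hasFDerivAt {f : E → ℝ} {f' : E → E →L[ℝ] ℝ}
    {f'' : E →L[ℝ] E →L[ℝ] ℝ} {x : E} {ι : Type*} [Fintype ι] (b : OrthonormalBasis ι ℝ E)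
    (h : ∀ᶠ y in nhds x, HasFDerivAt f (f' y) y) (h' : HasFDerivAt f' f'' x) :
    Δ f x = ∑ i, f'' (b i) (b i) := by
  rw [laplacian_eq_iteratedFDeriv_orthonormalBasis f b]
  refine Finset.sum_congr rfl fun i _ => ?_
  rw [iteratedFDeriv_two_apply]
  have h1 : fderiv ℝ f =ᶠ[nhds x] f' := by
    filter_upwards [h] with y hy using hy.fderiv
  rw [h1.fderiv_eq, h'.fderiv]
  simp

/-- Laplacian of a function of `‖x‖²`. -/
lemma laplacian_comp_normSq {U U' U'' : ℝ → ℝ} {x : E}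
    (h : ∀ᶠ s in nhds (‖x‖ ^ 2), HasDerivAt U (U' s) s)
    (h' : HasDerivAt U' (U'' (‖x‖ ^ 2)) (‖x‖ ^ 2)) :
    Δ (fun y : E => U (‖y‖ ^ 2)) x =
      4 * ‖x‖ ^ 2 * U'' (‖x‖ ^ 2) + 2 * (Module.finrank ℝ E : ℝ) * U' (‖x‖ ^ 2) := by
  have hn : ∀ y : E, HasFDerivAt (fun y : E => ‖y‖ ^ 2) (2 • (innerSL ℝ y)) y := fun y =>
    (hasStrictFDerivAt_norm_sq y).hasFDerivAt
  have hcont : Continuous (fun y : E => ‖y‖ ^ 2) := by fun_prop
  have h1 : ∀ᶠ y in nhds x, HasFDerivAt (fun y : E => U (‖y‖ ^ 2))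
      (U' (‖y‖ ^ 2) • (2 • (innerSL ℝ y))) y := by
    filter_upwards [hcont.continuousAt.eventually h] with y hy
    exact hy.comp_hasFDerivAt y (hn y)
  have h2 : HasFDerivAt (fun y : E => U' (‖y‖ ^ 2)) (U'' (‖x‖ ^ 2) • (2 • (innerSL ℝ x))) x :=
    h'.comp_hasFDerivAt x (hn x)
  have h3 : HasFDerivAt (fun y : E => (2 : ℕ) • (innerSL ℝ y)) (2 • (innerSL ℝ : E →L[ℝ] E →L[ℝ] ℝ)) x :=
    ((2 : ℕ) • (innerSL ℝ : E →L[ℝ] E →L[ℝ] ℝ)).hasFDerivAt
  have h4 := h2.smul h3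
  rw [laplacian_eq_of_hasFDerivAt (stdOrthonormalBasis ℝ E) h1 h4]
  have hsum := (stdOrthonormalBasis ℝ E).sum_sq_inner_left x
  have hterm : ∀ i, (U' (‖x‖ ^ 2) • (2 • (innerSL ℝ : E →L[ℝ] E →L[ℝ] ℝ)) +
      (U'' (‖x‖ ^ 2) • (2 • (innerSL ℝ x))).smulRight ((2 : ℕ) • (innerSL ℝ x)))
        ((stdOrthonormalBasis ℝ E) i) ((stdOrthonormalBasis ℝ E) i) =
      4 * U'' (‖x‖ ^ 2) * (inner ℝ x ((stdOrthonormalBasis ℝ E) i)) ^ 2 + 2 * U' (‖x‖ ^ 2) := by
    intro i
    have : inner ℝ ((stdOrthonormalBasis ℝ E) i) ((stdOrthonormalBasis ℝ E) i) = (1 : ℝ) := by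
      rw [real_inner_self_eq_norm_sq]; simp
    rw [add_apply, ContinuousLinearMap.smulRight_apply]
    simp [this, -inner_self_eq_norm_sq_to_K]
    ring
  rw [Finset.sum_congr rfl fun i _ => hterm i, Finset.sum_add_distrib, ← Finset.mul_sum, hsum]
  simp
  ring

end general

/-- the threshold below which the radial function is constant -/
noncomputable def thr (m R : ℝ) : ℝ := R ^ 2 * Real.exp (-10 / m)

/-- the profile in terms of `s = |x|²` -/
noncomputable def psi (m R s : ℝ) : ℝ :=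
  if s < thr m R then V 5 else V (-(m / 2) * Real.log (s / R ^ 2))

/-- its first derivative -/
noncomputable def psi1 (m R s : ℝ) : ℝ := V1 (-(m / 2) * Real.log (s / R ^ 2)) * (-(m / 2) / s)

/-- its second derivative -/
noncomputable def psi2 (m R s : ℝ) : ℝ :=
  (V1 (-(m / 2) * Real.log (s / R ^ 2)) + g (-(m / 2) * Real.log (s / R ^ 2))) * (-(m / 2) / s) *
    (-(m / 2) / s) + V1 (-(m / 2) * Real.log (s / R ^ 2)) * ((m / 2) / s ^ 2)

variable {m R : ℝ}

lemma thr_pos (hR : 0 < R) : 0 < thr m R := by unfold thr; positivity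

lemma psi_pos (hm : 0 < m) (hR : 0 < R) {s : ℝ} (hs : 0 < s) :
    psi m R s = V (-(m / 2) * Real.log (s / R ^ 2)) := by
  unfold psi
  split_ifs with h
  · symm
    apply V_large
    have h1 : Real.log (s / R ^ 2) < -10 / m := by
      rw [Real.log_lt_iff_lt_exp (by positivity), div_lt_iff₀ (by positivity), mul_comm]
      exact h
    have h2 : (-(m / 2)) * (-10 / m) = 5 := by field_simp; norm_num
    rw [← h2]
    apply mul_le_mul_of_nonpos_left h1.le
    linarith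
  · rfl

lemma y_deriv (hR : 0 < R) {s : ℝ} (hs : 0 < s) :
    HasDerivAt (fun s => -(m / 2) * Real.log (s / R ^ 2)) (-(m / 2) / s) s := by
  have h1 : HasDerivAt (fun s : ℝ => s / R ^ 2) (1 / R ^ 2) s := (hasDerivAt_id s).div_const _
  have h2 := (h1.log (by positivity)).const_mul (-(m / 2))
  have e : -(m / 2) * (1 / R ^ 2 / (s / R ^ 2)) = -(m / 2) / s := by
    have : (R : ℝ) ^ 2 ≠ 0 := by positivity
    field_simp
  rw [e] at h2
  exact h2

lemma psi_deriv (hm : 0 < m) (hR : 0 < R) {s : ℝ} (hs : 0 < s) :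
    HasDerivAt (psi m R) (psi1 m R s) s := by
  have h1 : HasDerivAt (fun s => V (-(m / 2) * Real.log (s / R ^ 2))) (psi1 m R s) s :=
    (V_deriv _).comp s (y_deriv hR hs)
  apply h1.congr_of_eventuallyEq
  filter_upwards [lt_mem_nhds hs] with t ht
  exact psi_pos hm hR ht

lemma psi1_deriv (hR : 0 < R) {s : ℝ} (hs : 0 < s) :
    HasDerivAt (psi1 m R) (psi2 m R s) s := by
  have h1 : HasDerivAt (fun s => V1 (-(m / 2) * Real.log (s / R ^ 2)))
      ((V1 (-(m / 2) * Real.log (s / R ^ 2)) + g (-(m / 2) * Real.log (s / R ^ 2))) *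
        (-(m / 2) / s)) s := (V1_deriv _).comp s (y_deriv hR hs)
  have h2 : HasDerivAt (fun s : ℝ => -(m / 2) / s) ((m / 2) / s ^ 2) s := by
    have := (hasDerivAt_inv hs.ne').const_mul (-(m / 2))
    have e : -(m / 2) * -(s ^ 2)⁻¹ = (m / 2) / s ^ 2 := by ring
    rw [e] at this
    simpa only [div_eq_mul_inv] using this
  exact h1.mul h2

lemma psi_contDiff (hm : 0 < m) (hR : 0 < R) : ContDiff ℝ 2 (psi m R) := by
  rw [contDiff_iff_contDiffAt]
  intro s
  rcases lt_or_ge s (thr m R) with h | h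
  · have : psi m R =ᶠ[𝓝 s] fun _ => V 5 := by
      filter_upwards [gt_mem_nhds h] with t ht
      unfold psi
      rw [if_pos ht]
    exact (contDiffAt_const (c := V 5)).congr_of_eventuallyEq this
  · have hs : 0 < s := (thr_pos hR).trans_le h
    have h1 : ContDiffAt ℝ 2 (fun s => V (-(m / 2) * Real.log (s / R ^ 2))) s := by
      apply V_contDiff.contDiffAt.comp s
      apply contDiffAt_const.mul
      apply ContDiffAt.log
      · exact contDiffAt_id.div_const _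
      · positivity
    apply h1.congr_of_eventuallyEq
    filter_upwards [lt_mem_nhds hs] with t ht
    exact psi_pos hm hR ht

section
variable {p : ℕ}

/-- the function -/
noncomputable def uu (p : ℕ) (R : ℝ) (x : EuclideanSpace ℝ (Fin (2 * p))) : ℝ :=
  psi (2 * p - 2) R (‖x‖ ^ 2)

lemma uu_contDiff (hp : 2 ≤ p) (hR : 0 < R) : ContDiff ℝ 2 (uu p R) := by
  have hm : (0 : ℝ) < 2 * p - 2 := by
    have : (2 : ℝ) ≤ p := by exact_mod_cast hp
    linarith
  exact (psi_contDiff hm hR).comp (contDiff_norm_sq ℝ)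

lemma lap_ne (hp : 2 ≤ p) (hR : 0 < R) {x : EuclideanSpace ℝ (Fin (2 * p))} (hx : x ≠ 0) :
    Δ (uu p R) x = (2 * p - 2) ^ 2 *
      g (-((2 * p - 2) / 2) * Real.log (‖x‖ ^ 2 / R ^ 2)) / ‖x‖ ^ 2 := by
  have hm : (0 : ℝ) < 2 * p - 2 := by
    have : (2 : ℝ) ≤ p := by exact_mod_cast hp
    linarith
  have hs : 0 < ‖x‖ ^ 2 := by have := norm_pos_iff.mpr hx; positivity
  have h := laplacian_comp_normSq (U := psi (2 * p - 2) R) (U' := psi1 (2 * p - 2) R)
    (U'' := psi2 (2 * p - 2) R) (x := x)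
    (by filter_upwards [lt_mem_nhds hs] with t ht; exact psi_deriv hm hR ht) (psi1_deriv hR hs)
  change Δ (fun y : EuclideanSpace ℝ (Fin (2 * p)) => psi (2 * p - 2) R (‖y‖ ^ 2)) x = _
  rw [h, finrank_euclideanSpace, Fintype.card_fin]
  unfold psi2 psi1
  generalize V1 (-((2 * p - 2) / 2) * Real.log (‖x‖ ^ 2 / R ^ 2)) = A
  generalize g (-((2 * p - 2) / 2) * Real.log (‖x‖ ^ 2 / R ^ 2)) = B
  generalize ‖x‖ ^ 2 = s at hs
  have hs' := hs.ne'
  push_cast
  field_simp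
  ring

lemma lap_small (hR : 0 < R) {x : EuclideanSpace ℝ (Fin (2 * p))}
    (hx : ‖x‖ ^ 2 < thr (2 * p - 2) R) : Δ (uu p R) x = 0 := by
  have h1 : (uu p R) =ᶠ[𝓝 x] (fun _ => V 5) := by
    have hc : Continuous (fun y : EuclideanSpace ℝ (Fin (2 * p)) => ‖y‖ ^ 2) := by fun_prop
    filter_upwards [hc.continuousAt.eventually (gt_mem_nhds hx)] with y hy
    unfold uu psi
    rw [if_pos hy]
  have h2 := (laplacian_congr_nhds h1).self_of_nhds
  rw [h2]
  simp

lemma lap_bound (hp : 2 ≤ p) (hR : 0 < R) (x : EuclideanSpace ℝ (Fin (2 * p))) :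
    |Δ (uu p R) x| ≤ (2 * p - 2) ^ 2 / thr (2 * p - 2) R := by
  have ht := thr_pos (m := 2 * p - 2) hR
  rcases lt_or_ge (‖x‖ ^ 2) (thr (2 * p - 2) R) with h | h
  · rw [lap_small hR h, abs_zero]
    positivity
  · have hx : x ≠ 0 := by
      rintro rfl
      simp at h
      linarith
    rw [lap_ne hp hR hx, abs_div, abs_mul, abs_of_nonneg (sq_nonneg ((2 : ℝ) * p - 2)),
      abs_of_nonneg (sq_nonneg ‖x‖)]
    have h1 := g_abs (-((2 * p - 2) / 2) * Real.log (‖x‖ ^ 2 / R ^ 2))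
    have h2 : ((2 : ℝ) * p - 2) ^ 2 * |g (-((2 * p - 2) / 2) * Real.log (‖x‖ ^ 2 / R ^ 2))| ≤
        (2 * p - 2) ^ 2 := mul_le_of_le_one_right (sq_nonneg _) h1
    exact div_le_div₀ (sq_nonneg _) h2 ht h

lemma uu_support (hp : 2 ≤ p) (hR : 0 < R) {x : EuclideanSpace ℝ (Fin (2 * p))}
    (hx : R * Real.exp (-(1 / 100) / (2 * p - 2)) ≤ ‖x‖) : uu p R x = 0 := by
  have hm : (0 : ℝ) < 2 * p - 2 := by
    have : (2 : ℝ) ≤ p := by exact_mod_cast hp
    linarith
  have hx0 : 0 < ‖x‖ := lt_of_lt_of_le (by positivity) hx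
  unfold uu
  rw [psi_pos hm hR (by positivity)]
  apply V_small
  have h1 : -(1 / 100) / (2 * (p : ℝ) - 2) ≤ Real.log (‖x‖ / R) := by
    rw [Real.le_log_iff_exp_le (by positivity), le_div_iff₀ hR, mul_comm]
    exact hx
  have h2 : Real.log (‖x‖ ^ 2 / R ^ 2) = 2 * Real.log (‖x‖ / R) := by
    rw [← div_pow, Real.log_pow]; norm_num
  rw [h2]
  have h3 : -(1 / 100) ≤ (2 * (p : ℝ) - 2) * Real.log (‖x‖ / R) := by
    rw [div_le_iff₀ hm] at h1
    linarith
  nlinarith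

lemma uu_tsupport (hp : 2 ≤ p) (hR : 0 < R) :
    HasCompactSupport (uu p R) ∧ tsupport (uu p R) ⊆ Metric.ball 0 R := by
  have hm : (0 : ℝ) < 2 * p - 2 := by
    have : (2 : ℝ) ≤ p := by exact_mod_cast hp
    linarith
  set r := R * Real.exp (-(1 / 100) / (2 * (p : ℝ) - 2)) with hr
  have h1 : Function.support (uu p R) ⊆ Metric.closedBall 0 r := by
    intro x hx
    rw [Metric.mem_closedBall, dist_zero_right]
    by_contra h
    push Not at h
    exact hx (uu_support hp hR h.le)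
  have h2 : tsupport (uu p R) ⊆ Metric.closedBall 0 r :=
    closure_minimal h1 Metric.isClosed_closedBall
  refine ⟨HasCompactSupport.of_support_subset_isCompact (isCompact_closedBall 0 r) h1,
    h2.trans (Metric.closedBall_subset_ball ?_)⟩
  have h3 : Real.exp (-(1 / 100) / (2 * (p : ℝ) - 2)) < 1 := by
    rw [Real.exp_lt_one_iff]
    exact div_neg_of_neg_of_pos (by norm_num) hm
  calc r < R * 1 := mul_lt_mul_of_pos_left h3 hR
    _ = R := mul_one R

end

end Pool.Agent.R515.HR
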