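import Mathlib

/-!
A one-dimensional profile for the critical Hardy-Rellich inequality.
-/

set_option autoImplicit false

namespace Pool.Agent.R515.HR

open MeasureTheory Set Filter Topology
open scoped Real

/-- first bump -/
noncomputable def g1 (s : ℝ) : ℝ :=
  max 0 (min 1 (min ((s - 1 / 100) * 100) ((49 / 100 - s) * 100)))

/-- second bump -/
noncomputable def g2 (s : ℝ) : ℝ := max 0 (min 1 (min ((s - 1 / 2) * 10) (5 - s)))

lemma g1_cont : Continuous g1 := by unfold g1; fun_prop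
lemma g2_cont : Continuous g2 := by unfold g2; fun_prop
lemma g1_nonneg (s : ℝ) : 0 ≤ g1 s := le_max_left _ _
lemma g2_nonneg (s : ℝ) : 0 ≤ g2 s := le_max_left _ _
lemma g1_le (s : ℝ) : g1 s ≤ 1 := max_le (by norm_num) (min_le_left _ _)
lemma g2_le (s : ℝ) : g2 s ≤ 1 := max_le (by norm_num) (min_le_left _ _)

lemma g1_one {s : ℝ} (h1 : 1 / 50 ≤ s) (h2 : s ≤ 12 / 25) : g1 s = 1 := by
  unfold g1
  rw [min_eq_left, max_eq_right (by norm_num)]
  apply le_min <;> linarith

lemma g2_one {s : ℝ} (h1 : 3 / 5 ≤ s) (h2 : s ≤ 4) : g2 s = 1 := by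
  unfold g2
  rw [min_eq_left, max_eq_right (by norm_num)]
  apply le_min <;> linarith

lemma g1_zero {s : ℝ} (h : s ≤ 1 / 100 ∨ 49 / 100 ≤ s) : g1 s = 0 := by
  unfold g1
  apply max_eq_left
  rcases h with h | h
  · exact (min_le_right _ _).trans ((min_le_left _ _).trans (by linarith))
  · exact (min_le_right _ _).trans ((min_le_right _ _).trans (by linarith))

lemma g2_zero {s : ℝ} (h : s ≤ 1 / 2 ∨ 5 ≤ s) : g2 s = 0 := by
  unfold g2
  apply max_eq_left
  rcases h with h | h
  · exact (min_le_right _ _).trans ((min_le_left _ _).trans (by linarith))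
  · exact (min_le_right _ _).trans ((min_le_right _ _).trans (by linarith))

noncomputable def G1 : ℝ := ∫ s in (0 : ℝ)..5, Real.exp (-s) * g1 s
noncomputable def G2 : ℝ := ∫ s in (0 : ℝ)..5, Real.exp (-s) * g2 s

lemma ii {f : ℝ → ℝ} (hf : Continuous f) (a b : ℝ) : IntervalIntegrable f volume a b :=
  hf.intervalIntegrable a b

lemma c1 : Continuous (fun s : ℝ => Real.exp (-s) * g1 s) :=
  (Real.continuous_exp.comp continuous_neg).mul g1_cont
lemma c2 : Continuous (fun s : ℝ => Real.exp (-s) * g2 s) :=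
  (Real.continuous_exp.comp continuous_neg).mul g2_cont

lemma G1_nonneg : 0 ≤ G1 :=
  intervalIntegral.integral_nonneg (by norm_num) (fun s _ =>
    mul_nonneg (Real.exp_pos _).le (g1_nonneg s))

lemma G1_le : G1 ≤ 49 / 100 := by
  have h1 : G1 = (∫ s in (0 : ℝ)..(49 / 100), Real.exp (-s) * g1 s) +
      ∫ s in (49 / 100 : ℝ)..5, Real.exp (-s) * g1 s :=
    (intervalIntegral.integral_add_adjacent_intervals (ii c1 _ _) (ii c1 _ _)).symm
  have h2 : ∫ s in (49 / 100 : ℝ)..5, Real.exp (-s) * g1 s = ∫ s in (49 / 100 : ℝ)..5, (0 : ℝ) := by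
    apply intervalIntegral.integral_congr
    intro s hs
    rw [uIcc_of_le (by norm_num)] at hs
    simp only
    rw [g1_zero (Or.inr hs.1), mul_zero]
  have h3 : ∫ s in (0 : ℝ)..(49 / 100), Real.exp (-s) * g1 s ≤ ∫ s in (0 : ℝ)..(49 / 100), (1 : ℝ) := by
    apply intervalIntegral.integral_mono_on (by norm_num) (ii c1 _ _) (ii continuous_const _ _)
    intro s hs
    have e1 : Real.exp (-s) ≤ 1 := by
      rw [Real.exp_le_one_iff]; linarith [hs.1]
    have := mul_le_mul e1 (g1_le s) (g1_nonneg s) (by norm_num)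
    simpa using this
  rw [h1, h2]
  rw [intervalIntegral.integral_const] at h3
  simp at h3 ⊢
  exact h3

lemma exp_bd : 49 / 100 < Real.exp (-(3 / 5)) - Real.exp (-4) := by
  have he1 := Real.exp_one_gt_d9
  have he2 := Real.exp_one_lt_d9
  have h1 : Real.exp (3 / 5) < 1.9 := by
    by_contra h
    push Not at h
    have h2 : Real.exp (3 / 5) ^ 5 = Real.exp 1 ^ 3 := by
      rw [← Real.exp_nat_mul, ← Real.exp_nat_mul]; norm_num
    have h3 : (1.9 : ℝ) ^ 5 ≤ Real.exp (3 / 5) ^ 5 := pow_le_pow_left₀ (by norm_num) h 5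
    have h4 : Real.exp 1 ^ 3 < 2.72 ^ 3 := pow_lt_pow_left₀ (by linarith) (Real.exp_pos _).le
      (by norm_num)
    rw [h2] at h3
    norm_num at h3 h4
    linarith
  have h5 : (50 : ℝ) < Real.exp 4 := by
    have : Real.exp 4 = Real.exp 1 ^ 4 := by
      rw [← Real.exp_nat_mul]; norm_num
    rw [this]
    have h4 : (2.7 : ℝ) ^ 4 < Real.exp 1 ^ 4 := pow_lt_pow_left₀ (by linarith) (by norm_num)
      (by norm_num)
    norm_num at h4 ⊢
    linarith
  rw [Real.exp_neg, Real.exp_neg]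
  have h6 : (1.9 : ℝ)⁻¹ < (Real.exp (3 / 5))⁻¹ := inv_strictAnti₀ (Real.exp_pos _) h1
  have h7 : (Real.exp 4)⁻¹ < (50 : ℝ)⁻¹ := inv_strictAnti₀ (by norm_num) h5
  norm_num at h6 h7 ⊢
  linarith

lemma G2_gt : 49 / 100 < G2 := by
  have h1 : G2 = (∫ s in (0 : ℝ)..(3 / 5), Real.exp (-s) * g2 s) +
      ∫ s in (3 / 5 : ℝ)..5, Real.exp (-s) * g2 s :=
    (intervalIntegral.integral_add_adjacent_intervals (ii c2 _ _) (ii c2 _ _)).symm
  have h1' : ∫ s in (3 / 5 : ℝ)..5, Real.exp (-s) * g2 s =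
      (∫ s in (3 / 5 : ℝ)..4, Real.exp (-s) * g2 s) + ∫ s in (4 : ℝ)..5, Real.exp (-s) * g2 s :=
    (intervalIntegral.integral_add_adjacent_intervals (ii c2 _ _) (ii c2 _ _)).symm
  have h2 : 0 ≤ ∫ s in (0 : ℝ)..(3 / 5), Real.exp (-s) * g2 s :=
    intervalIntegral.integral_nonneg (by norm_num) (fun s _ =>
      mul_nonneg (Real.exp_pos _).le (g2_nonneg s))
  have h3 : 0 ≤ ∫ s in (4 : ℝ)..5, Real.exp (-s) * g2 s :=
    intervalIntegral.integral_nonneg (by norm_num) (fun s _ =>
      mul_nonneg (Real.exp_pos _).le (g2_nonneg s))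
  have h4 : ∫ s in (3 / 5 : ℝ)..4, Real.exp (-s) * g2 s = ∫ s in (3 / 5 : ℝ)..4, Real.exp (-s) := by
    apply intervalIntegral.integral_congr
    intro s hs
    rw [uIcc_of_le (by norm_num)] at hs
    simp only
    rw [g2_one hs.1 hs.2, mul_one]
  have h5 : ∫ s in (3 / 5 : ℝ)..4, Real.exp (-s) = Real.exp (-(3 / 5)) - Real.exp (-4) := by
    rw [intervalIntegral.integral_comp_neg (fun s => Real.exp s), integral_exp]
  have := exp_bd
  linarith

noncomputable def lam : ℝ := G1 / G2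

lemma lam_nonneg : 0 ≤ lam := div_nonneg G1_nonneg (by linarith [G2_gt])
lemma lam_le : lam ≤ 1 := by
  unfold lam
  rw [div_le_one (by linarith [G2_gt])]
  linarith [G1_le, G2_gt]

/-- the second derivative of the profile minus the first one -/
noncomputable def g (s : ℝ) : ℝ := g1 s - lam * g2 s

lemma g_cont : Continuous g := g1_cont.sub (continuous_const.mul g2_cont)

lemma g_abs (s : ℝ) : |g s| ≤ 1 := by
  unfold g
  rcases le_total s (1 / 2) with h | h
  · rw [g2_zero (Or.inl h), mul_zero, sub_zero, abs_of_nonneg (g1_nonneg s)]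
    exact g1_le s
  · rw [g1_zero (Or.inr (by linarith)), zero_sub, abs_neg,
      abs_of_nonneg (mul_nonneg lam_nonneg (g2_nonneg s))]
    exact mul_le_one₀ lam_le (g2_nonneg s) (g2_le s)

lemma g_large {s : ℝ} (h : 5 ≤ s) : g s = 0 := by
  unfold g; rw [g1_zero (Or.inr (by linarith)), g2_zero (Or.inr h)]; ring

lemma g_small {s : ℝ} (h : s ≤ 1 / 100) : g s = 0 := by
  unfold g; rw [g1_zero (Or.inl h), g2_zero (Or.inl (by linarith))]; ring

lemma g_eq1 {s : ℝ} (h : s ≤ 1 / 2) : g s = g1 s := by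
  unfold g; rw [g2_zero (Or.inl h)]; ring

noncomputable def P (y : ℝ) : ℝ := ∫ s in (0 : ℝ)..y, Real.exp (-s) * g s
noncomputable def Q (y : ℝ) : ℝ := ∫ s in (0 : ℝ)..y, g s
/-- the profile -/
noncomputable def V (y : ℝ) : ℝ := Real.exp y * P y - Q y
noncomputable def V1 (y : ℝ) : ℝ := Real.exp y * P y

lemma c3 : Continuous (fun s : ℝ => Real.exp (-s) * g s) :=
  (Real.continuous_exp.comp continuous_neg).mul g_cont

lemma P_deriv (y : ℝ) : HasDerivAt P (Real.exp (-y) * g y) y :=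
  intervalIntegral.integral_hasDerivAt_right (ii c3 _ _)
    c3.stronglyMeasurable.stronglyMeasurableAtFilter c3.continuousAt

lemma Q_deriv (y : ℝ) : HasDerivAt Q (g y) y :=
  intervalIntegral.integral_hasDerivAt_right (ii g_cont _ _)
    g_cont.stronglyMeasurable.stronglyMeasurableAtFilter g_cont.continuousAt

lemma V1_deriv (y : ℝ) : HasDerivAt V1 (V1 y + g y) y := by
  have h := (Real.hasDerivAt_exp y).mul (P_deriv y)
  have e : Real.exp y * P y + Real.exp y * (Real.exp (-y) * g y) = V1 y + g y := by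
    unfold V1
    rw [← mul_assoc, ← Real.exp_add]
    simp
  rw [e] at h
  exact h

lemma V_deriv (y : ℝ) : HasDerivAt V (V1 y) y := by
  have h := (V1_deriv y).sub (Q_deriv y)
  have e : V1 y + g y - g y = V1 y := by ring
  rw [e] at h
  exact h

lemma V_contDiff : ContDiff ℝ 2 V := by
  have hd : deriv V = V1 := funext fun y => (V_deriv y).deriv
  have hd1 : deriv V1 = fun y => V1 y + g y := funext fun y => (V1_deriv y).deriv
  have hV1 : Differentiable ℝ V1 := fun y => (V1_deriv y).differentiableAt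
  have h1 : ContDiff ℝ 1 V1 := by
    rw [contDiff_one_iff_deriv]
    refine ⟨hV1, ?_⟩
    rw [hd1]
    exact hV1.continuous.add g_cont
  rw [show (2 : WithTop ℕ∞) = 1 + 1 by norm_num, contDiff_succ_iff_deriv]
  refine ⟨fun y => (V_deriv y).differentiableAt, by simp, ?_⟩
  rw [hd]
  exact h1

lemma P_five : P 5 = 0 := by
  unfold P g
  have h : ∀ s : ℝ, Real.exp (-s) * (g1 s - lam * g2 s) =
      Real.exp (-s) * g1 s - lam * (Real.exp (-s) * g2 s) := fun s => by ring
  simp_rw [h]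
  rw [intervalIntegral.integral_sub (ii c1 _ _) ((ii c2 _ _).const_mul _),
    intervalIntegral.integral_const_mul]
  have h2 : lam * G2 = G1 := div_mul_cancel₀ _ (by linarith [G2_gt] : G2 ≠ 0)
  change G1 - lam * G2 = 0
  rw [h2, sub_self]

lemma V_large {y : ℝ} (h : 5 ≤ y) : V y = V 5 := by
  have h1 : P y = 0 := by
    have e : P y = P 5 + ∫ s in (5 : ℝ)..y, Real.exp (-s) * g s :=
      (intervalIntegral.integral_add_adjacent_intervals (ii c3 _ _) (ii c3 _ _)).symm
    have e2 : ∫ s in (5 : ℝ)..y, Real.exp (-s) * g s = ∫ s in (5 : ℝ)..y, (0 : ℝ) := by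
      apply intervalIntegral.integral_congr
      intro s hs
      rw [uIcc_of_le h] at hs
      simp only
      rw [g_large hs.1, mul_zero]
    rw [e, e2, P_five]
    simp
  have h2 : Q y = Q 5 := by
    have e : Q y = Q 5 + ∫ s in (5 : ℝ)..y, g s :=
      (intervalIntegral.integral_add_adjacent_intervals (ii g_cont _ _) (ii g_cont _ _)).symm
    have e2 : ∫ s in (5 : ℝ)..y, g s = ∫ s in (5 : ℝ)..y, (0 : ℝ) := by
      apply intervalIntegral.integral_congr
      intro s hs
      rw [uIcc_of_le h] at hs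
      exact g_large hs.1
    rw [e, e2]
    simp
  unfold V
  rw [h1, h2, P_five]
  ring

lemma V_small {y : ℝ} (h : y ≤ 1 / 100) : V y = 0 := by
  have h0 : ∀ s ∈ uIcc 0 y, g s = 0 := by
    intro s hs
    apply g_small
    rcases le_total 0 y with hy | hy
    · rw [uIcc_of_le hy] at hs; linarith [hs.2]
    · rw [uIcc_of_ge hy] at hs; linarith [hs.2]
  have h1 : P y = 0 := by
    have e2 : P y = ∫ s in (0 : ℝ)..y, (0 : ℝ) := by
      apply intervalIntegral.integral_congr
      intro s hs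
      simp only
      rw [h0 s hs, mul_zero]
    rw [e2]; simp
  have h2 : Q y = 0 := by
    have e2 : Q y = ∫ s in (0 : ℝ)..y, (0 : ℝ) := by
      apply intervalIntegral.integral_congr
      intro s hs
      exact h0 s hs
    rw [e2]; simp
  unfold V
  rw [h1, h2]
  ring

lemma V_low {y : ℝ} (h1 : 23 / 50 ≤ y) (h2 : y ≤ 12 / 25) : 13 / 25 * y ^ 2 ≤ V y := by
  have e1 : V y = ∫ s in (0 : ℝ)..y, (Real.exp (y - s) - 1) * g s := by
    unfold V P Q
    rw [← intervalIntegral.integral_const_mul, ← intervalIntegral.integral_sub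
      ((ii c3 _ _).const_mul _) (ii g_cont _ _)]
    apply intervalIntegral.integral_congr
    intro s _
    simp only
    rw [sub_eq_add_neg y s, Real.exp_add]
    ring
  have c4 : Continuous (fun s : ℝ => (Real.exp (y - s) - 1) * g s) :=
    ((Real.continuous_exp.comp (continuous_const.sub continuous_id)).sub continuous_const).mul g_cont
  have e2 : ∫ s in (0 : ℝ)..y, (Real.exp (y - s) - 1) * g s =
      (∫ s in (0 : ℝ)..(1 / 50), (Real.exp (y - s) - 1) * g s) +
        ∫ s in (1 / 50 : ℝ)..y, (Real.exp (y - s) - 1) * g s :=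
    (intervalIntegral.integral_add_adjacent_intervals (ii c4 _ _) (ii c4 _ _)).symm
  have e3 : 0 ≤ ∫ s in (0 : ℝ)..(1 / 50), (Real.exp (y - s) - 1) * g s := by
    apply intervalIntegral.integral_nonneg (by norm_num)
    intro s hs
    rw [g_eq1 (by linarith [hs.2])]
    apply mul_nonneg _ (g1_nonneg s)
    have := Real.add_one_le_exp (y - s)
    linarith [hs.2]
  have e4 : ∫ s in (1 / 50 : ℝ)..y, ((y - s) + (y - s) ^ 2 / 2) ≤
      ∫ s in (1 / 50 : ℝ)..y, (Real.exp (y - s) - 1) * g s := by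
    apply intervalIntegral.integral_mono_on (by linarith) (ii (by fun_prop) _ _) (ii c4 _ _)
    intro s hs
    rw [g_eq1 (by linarith [hs.2]), g1_one hs.1 (by linarith [hs.2]), mul_one]
    have := Real.quadratic_le_exp_of_nonneg (x := y - s) (by linarith [hs.2])
    linarith
  have e5 : ∫ s in (1 / 50 : ℝ)..y, ((y - s) + (y - s) ^ 2 / 2) =
      (y - 1 / 50) ^ 2 / 2 + (y - 1 / 50) ^ 3 / 6 := by
    rw [intervalIntegral.integral_comp_sub_left (fun x => x + x ^ 2 / 2)]
    rw [intervalIntegral.integral_add (ii (by fun_prop) _ _) (ii (by fun_prop) _ _)]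
    simp
    ring
  rw [e1, e2]
  rw [e5] at e4
  have e6 : 13 / 25 * y ^ 2 ≤ (y - 1 / 50) ^ 2 / 2 + (y - 1 / 50) ^ 3 / 6 := by
    nlinarith [mul_nonneg (sub_nonneg.mpr h1) (sub_nonneg.mpr h2),
      mul_nonneg (sub_nonneg.mpr h1) (sub_nonneg.mpr h1), pow_nonneg (sub_nonneg.mpr h1) 3]
  linarith

end Pool.Agent.R515.HR
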